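import Pool.Agent.H65.HX.GBas
import Pool.Agent.H79.HW.Evd

/-!
# Project HX: EVD, even distribution, only the parts `Pt`
-/

set_option autoImplicit false
open Classical Finset

namespace Pool.Agent.H4.HX

open Pool.Agent.H65.HX
open Pool.Agent.H79.HW (even)

theorem t_EVD : S_EVD := by
  intro m Pt C part φ dd hm hz
  have hex : ∀ P β : ℕ, ∃ r : ℕ → ℕ, (P ∈ Pt → β ∈ C →
      (∑ y ∈ (range m).filter (fun y => part y = P ∧ φ y = β), r y = dd P β ∧
        ∀ y ∈ (range m).filter (fun y => part y = P ∧ φ y = β),
          r y * ((range m).filter (fun y => part y = P ∧ φ y = β)).card ≤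
            dd P β + ((range m).filter (fun y => part y = P ∧ φ y = β)).card)) := by
    intro P β
    by_cases hP : P ∈ Pt
    · by_cases hβ : β ∈ C
      · obtain ⟨r, h1, h2⟩ := even ((range m).filter (fun y => part y = P ∧ φ y = β)) (dd P β)
          (hz P hP β hβ)
        exact ⟨r, fun _ _ => ⟨h1, h2⟩⟩
      · exact ⟨fun _ => 0, fun _ h => absurd h hβ⟩
    · exact ⟨fun _ => 0, fun h => absurd h hP⟩
  choose r hr using hex
  refine ⟨fun y => r (part y) (φ y) y, ?_, ?_, ?_⟩
  · intro y hy hyP
    exact (hr (part y) (φ y) hyP ((hm y hy).1 hyP)).2 y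
      (mem_filter.2 ⟨mem_range.2 hy, rfl, rfl⟩)
  · intro P hP
    have hmap : ∀ y ∈ (range m).filter (fun y => part y = P), φ y ∈ C := by
      intro y hy
      have h1 := mem_filter.1 hy
      exact (hm y (mem_range.1 h1.1)).1 (by rw [h1.2]; exact hP)
    rw [← Finset.sum_fiberwise_of_maps_to hmap]
    refine Finset.sum_congr rfl ?_
    intro β hβ
    rw [Finset.filter_filter, ← (hr P β hP hβ).1]
    refine Finset.sum_congr rfl ?_
    intro y hy
    rw [(mem_filter.1 hy).2.1, (mem_filter.1 hy).2.2]
  · intro β hβ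
    have hmap : ∀ y ∈ (range m).filter (fun y => φ y = β), part y ∈ Pt := by
      intro y hy
      have h1 := mem_filter.1 hy
      exact (hm y (mem_range.1 h1.1)).2 (by rw [h1.2]; exact hβ)
    rw [← Finset.sum_fiberwise_of_maps_to hmap]
    refine Finset.sum_congr rfl ?_
    intro P hP
    rw [Finset.filter_filter, ← (hr P β hP hβ).1]
    have he : (range m).filter (fun y => φ y = β ∧ part y = P) =
        (range m).filter (fun y => part y = P ∧ φ y = β) := by
      ext y
      simp only [mem_filter]
      tauto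
    rw [he]
    refine Finset.sum_congr rfl ?_
    intro y hy
    rw [(mem_filter.1 hy).2.1, (mem_filter.1 hy).2.2]

end Pool.Agent.H4.HX
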