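import Pool.Agent.H65.HX.GBas

/-!
# Project HX: RNM, rounding of a matrix with integral row and column sums, rows `Pt`
-/

set_option autoImplicit false
open Classical Finset

namespace Pool.Agent.H4.HX

open Pool.Agent.H65.HX

/-- rounding of one column -/
theorem col (Pt : Finset ℕ) (hPt : Pt.Nonempty) (x : ℕ → ℝ) (e : ℕ) (hx : ∀ P ∈ Pt, 0 ≤ x P)
    (hs : ∑ P ∈ Pt, x P = e) :
    ∃ y : ℕ → ℕ, ∑ P ∈ Pt, y P = e ∧ (∀ P ∈ Pt, |(y P : ℝ) - x P| ≤ (Pt.card : ℝ) - 1) ∧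
      ∀ P ∈ Pt, x P = 0 → y P = 0 := by
  have hH : 1 ≤ Pt.card := hPt.card_pos
  have hH1 : (1 : ℝ) ≤ Pt.card := by exact_mod_cast hH
  by_cases hall : ∀ P ∈ Pt, x P = 0
  · refine ⟨fun _ => 0, ?_, ?_, fun _ _ _ => rfl⟩
    · have : (∑ P ∈ Pt, x P) = 0 :=
        Finset.sum_eq_zero fun P hP => hall P hP
      rw [this] at hs
      rw [Finset.sum_const_zero]
      exact_mod_cast hs
    · intro P hP
      rw [hall P hP]
      simpa using hH1
  · push Not at hall
    obtain ⟨P0, hmem, hP0x⟩ := hall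
    have hfl : ∀ P ∈ Pt.erase P0, (⌊x P⌋₊ : ℝ) ≤ x P := fun P hP =>
      Nat.floor_le (hx P (mem_erase.1 hP).2)
    have hfu : ∀ P ∈ Pt.erase P0, x P ≤ (⌊x P⌋₊ : ℝ) + 1 := fun P hP =>
      (Nat.lt_floor_add_one (x P)).le
    have hsum : x P0 + ∑ P ∈ Pt.erase P0, x P = e := by
      rw [Finset.add_sum_erase Pt x hmem, hs]
    have hle1 : ∑ P ∈ Pt.erase P0, (⌊x P⌋₊ : ℝ) ≤ ∑ P ∈ Pt.erase P0, x P :=
      Finset.sum_le_sum hfl
    have hle2 : ∑ P ∈ Pt.erase P0, x P ≤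
        ∑ P ∈ Pt.erase P0, (⌊x P⌋₊ : ℝ) + ((Pt.card : ℝ) - 1) := by
      have h1 := Finset.sum_le_sum hfu
      rw [Finset.sum_add_distrib, Finset.sum_const, Finset.card_erase_of_mem hmem,
        nsmul_eq_mul, mul_one, Nat.cast_sub hH, Nat.cast_one] at h1
      exact h1
    have hxP0 := hx P0 hmem
    have hleN : ∑ P ∈ Pt.erase P0, ⌊x P⌋₊ ≤ e := by
      have : ((∑ P ∈ Pt.erase P0, ⌊x P⌋₊ : ℕ) : ℝ) ≤ e := by
        push_cast
        linarith
      exact_mod_cast this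
    refine ⟨fun P => if P = P0 then e - ∑ P ∈ Pt.erase P0, ⌊x P⌋₊ else ⌊x P⌋₊,
      ?_, ?_, ?_⟩
    · rw [← Finset.add_sum_erase Pt _ hmem]
      have : ∑ P ∈ Pt.erase P0,
          (if P = P0 then e - ∑ P ∈ Pt.erase P0, ⌊x P⌋₊ else ⌊x P⌋₊) =
          ∑ P ∈ Pt.erase P0, ⌊x P⌋₊ := by
        refine Finset.sum_congr rfl fun P hP => ?_
        rw [if_neg (mem_erase.1 hP).1]
      rw [this, if_pos rfl]
      omega
    · intro P hP
      dsimp only
      by_cases h : P = P0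
      · rw [if_pos h, h, Nat.cast_sub hleN]
        push_cast
        rw [abs_le]
        constructor <;> linarith
      · rw [if_neg h, abs_le]
        have h1 := hfl P (mem_erase.2 ⟨h, hP⟩)
        have h2 := hfu P (mem_erase.2 ⟨h, hP⟩)
        have h3 : (2 : ℝ) ≤ Pt.card := by
          have : 1 < Pt.card := Finset.one_lt_card.2 ⟨P, hP, P0, hmem, h⟩
          exact_mod_cast this
        constructor <;> linarith
    · intro P hP hP00
      dsimp only
      have h : P ≠ P0 := fun h => hP0x (h ▸ hP00)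
      rw [if_neg h, hP00]
      simp

/-- part RNM -/
theorem t_RNM : S_RNM := by
  intro Pt C d ρ E β0 hβ0 hPt hd hrow hcol hbig
  have hH1 : (1 : ℝ) ≤ Pt.card := by exact_mod_cast hPt.card_pos
  have hC1 : (1 : ℝ) ≤ C.card := by
    have : 1 ≤ C.card := Finset.card_pos.2 ⟨β0, hβ0⟩
    exact_mod_cast this
  have hex : ∀ β : ℕ, ∃ y : ℕ → ℕ, β ∈ C → (∑ P ∈ Pt, y P = E β ∧
      (∀ P ∈ Pt, |(y P : ℝ) - d P β| ≤ (Pt.card : ℝ) - 1) ∧ ∀ P ∈ Pt, d P β = 0 → y P = 0) := by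
    intro β
    by_cases hβ : β ∈ C
    · obtain ⟨y, h⟩ := col Pt hPt (fun P => d P β) (E β) (fun P hP => hd P hP β hβ) (hcol β hβ)
      exact ⟨y, fun _ => h⟩
    · exact ⟨fun _ => 0, fun h => absurd h hβ⟩
  choose y hy using hex
  have hCH : ((C.card : ℝ) - 1) * ((Pt.card : ℝ) - 1) ≤ C.card * Pt.card := by nlinarith
  -- the estimate of the other entries of a row
  have hest : ∀ P ∈ Pt, |∑ β ∈ C.erase β0, (y β P : ℝ) - ∑ β ∈ C.erase β0, d P β| ≤
      ((C.card : ℝ) - 1) * ((Pt.card : ℝ) - 1) := by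
    intro P hP
    rw [← Finset.sum_sub_distrib]
    calc |∑ β ∈ C.erase β0, ((y β P : ℝ) - d P β)|
        ≤ ∑ β ∈ C.erase β0, |(y β P : ℝ) - d P β| := Finset.abs_sum_le_sum_abs _ _
      _ ≤ ∑ β ∈ C.erase β0, ((Pt.card : ℝ) - 1) :=
          Finset.sum_le_sum fun β hβ => (hy β (mem_erase.1 hβ).2).2.1 P hP
      _ = ((C.card : ℝ) - 1) * ((Pt.card : ℝ) - 1) := by
          rw [Finset.sum_const, Finset.card_erase_of_mem hβ0, nsmul_eq_mul,
            Nat.cast_sub (Finset.card_pos.2 ⟨β0, hβ0⟩), Nat.cast_one]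
  have hrow' : ∀ P ∈ Pt, d P β0 + ∑ β ∈ C.erase β0, d P β = ρ P := by
    intro P hP
    rw [Finset.add_sum_erase C (fun β => d P β) hβ0, hrow P hP]
  have hleN : ∀ P ∈ Pt, ∑ β ∈ C.erase β0, y β P ≤ ρ P := by
    intro P hP
    have h1 := (abs_le.1 (hest P hP)).2
    have h2 := hrow' P hP
    have h3 := hbig P hP
    have : ((∑ β ∈ C.erase β0, y β P : ℕ) : ℝ) ≤ ρ P := by
      push_cast
      linarith
    exact_mod_cast this
  have hsplit : ∀ P, ∑ β ∈ C.erase β0,
      (if β = β0 then ρ P - ∑ β ∈ C.erase β0, y β P else y β P) = ∑ β ∈ C.erase β0, y β P := by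
    intro P
    refine Finset.sum_congr rfl fun β hβ => ?_
    rw [if_neg (mem_erase.1 hβ).1]
  refine ⟨fun P β => if β = β0 then ρ P - ∑ β ∈ C.erase β0, y β P else y β P, ?_, ?_, ?_, ?_⟩
  · intro P hP
    rw [← Finset.add_sum_erase C _ hβ0]
    dsimp only
    rw [if_pos rfl, hsplit P]
    have := hleN P hP
    omega
  · intro β hβ
    dsimp only
    by_cases h : β = β0
    · subst h
      have htot : (∑ P ∈ Pt, (ρ P : ℝ)) = ∑ β ∈ C, (E β : ℝ) := by
        rw [← Finset.sum_congr rfl fun P hP => hrow P hP, Finset.sum_comm]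
        exact Finset.sum_congr rfl hcol
      have htotN : ∑ P ∈ Pt, ρ P = ∑ β ∈ C, E β := by exact_mod_cast htot
      have h1 : ∑ P ∈ Pt, (ρ P - ∑ β' ∈ C.erase β, y β' P) + ∑ β' ∈ C.erase β, E β' =
          E β + ∑ β' ∈ C.erase β, E β' := by
        have h2 : ∑ β' ∈ C.erase β, E β' = ∑ P ∈ Pt, ∑ β' ∈ C.erase β, y β' P := by
          rw [Finset.sum_comm]
          exact Finset.sum_congr rfl fun β' hβ' => ((hy β' (mem_erase.1 hβ').2).1).symm
        rw [Finset.add_sum_erase C E hβ, ← htotN]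
        rw [h2, ← Finset.sum_add_distrib]
        refine Finset.sum_congr rfl fun P hP => ?_
        have := hleN P hP
        omega
      have h3 : ∑ P ∈ Pt, (if β = β then ρ P - ∑ β' ∈ C.erase β, y β' P else y β P) =
          ∑ P ∈ Pt, (ρ P - ∑ β' ∈ C.erase β, y β' P) :=
        Finset.sum_congr rfl fun P _ => if_pos rfl
      rw [h3]
      omega
    · rw [← (hy β hβ).1]
      exact Finset.sum_congr rfl fun P _ => if_neg h
  · intro P hP β hβ
    dsimp only
    by_cases h : β = β0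
    · subst h
      rw [if_pos rfl, Nat.cast_sub (hleN P hP)]
      push_cast
      have h1 := abs_le.1 (hest P hP)
      have h2 := hrow' P hP
      rw [abs_le]
      constructor <;> linarith [h1.1, h1.2]
    · rw [if_neg h]
      have h1 := (hy β hβ).2.1 P hP
      nlinarith
  · intro P hP β hβ h0
    dsimp only
    by_cases h : β = β0
    · subst h
      exfalso
      have h1 := hbig P hP
      rw [h0] at h1
      nlinarith
    · rw [if_neg h]
      exact (hy β hβ).2.2 P hP h0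

end Pool.Agent.H4.HX
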