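import Pool.Agent.H65.HX.GBas

/-!
# Project HX: SELM, many disjoint choices of edges
-/

set_option autoImplicit false
open Classical Finset

namespace Pool.Agent.H4.HX

open Pool.Agent.H21.HV (nb)
open Pool.Agent.H65.HX
open Pool.Agent.H65.HW (S_SEL)

/-- the edges of `Γ` which are in no `Λ i`, `i ∈ I` -/
def rest {V : Type} (Γ : SimpleGraph V) (Λ : ℕ → SimpleGraph V) (I : Finset ℕ) :
    SimpleGraph V where
  Adj u v := Γ.Adj u v ∧ ∀ i ∈ I, ¬ (Λ i).Adj u v
  symm := ⟨fun _ _ h => ⟨h.1.symm, fun i hi h2 => h.2 i hi h2.symm⟩⟩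
  loopless := ⟨fun _ h => h.1.ne rfl⟩

theorem nb_rest {V : Type} (Γ : SimpleGraph V) (Λ : ℕ → SimpleGraph V) (I : Finset ℕ)
    (Q : Finset V) (z : V) :
    nb Γ Q z ≤ nb (rest Γ Λ I) Q z + ∑ i ∈ I, nb (Λ i) Q z := by
  have hsub : (Q.filter fun u => Γ.Adj z u) ⊆
      (Q.filter fun u => (rest Γ Λ I).Adj z u) ∪
        I.biUnion fun i => Q.filter fun u => (Λ i).Adj z u := by
    intro u hu
    rw [Finset.mem_filter] at hu
    rw [Finset.mem_union, Finset.mem_filter, Finset.mem_biUnion]
    by_cases h : ∃ i ∈ I, (Λ i).Adj z u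
    · obtain ⟨i, hi, hadj⟩ := h
      exact Or.inr ⟨i, hi, Finset.mem_filter.2 ⟨hu.1, hadj⟩⟩
    · push Not at h
      exact Or.inl ⟨hu.1, hu.2, h⟩
  have h1 := Finset.card_le_card hsub
  have h2 := Finset.card_union_le (Q.filter fun u => (rest Γ Λ I).Adj z u)
    (I.biUnion fun i => Q.filter fun u => (Λ i).Adj z u)
  have h3 := Finset.card_biUnion_le (s := I) (t := fun i => Q.filter fun u => (Λ i).Adj z u)
  unfold nb
  omega

theorem t_SELM (hSEL : S_SEL) : S_SELM := by
  intro V _ Γ P Q I r r0 d C hPQ hd
  induction I using Finset.induction_on with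
  | empty =>
    intro _ _ _
    exact ⟨fun _ => ⊥, fun _ => bot_le, fun _ _ _ h => h.elim, fun _ _ _ _ h => h.elim,
      fun i hi => absurd hi (Finset.notMem_empty i), fun i hi => absurd hi (Finset.notMem_empty i)⟩
  | insert a I ha ih =>
    intro hr hz hu
    rw [Finset.card_insert_of_notMem ha] at hz
    obtain ⟨Λ, h1, h2, h3, h4, h5⟩ := ih (fun i hi => hr i (Finset.mem_insert_of_mem hi))
      (fun z hzP => by have := hz z hzP; nlinarith) hu
    have hz' : ∀ z ∈ P, d + r0 ≤ nb (rest Γ Λ I) Q z := by
      intro z hzP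
      have e1 := hz z hzP
      have e2 := nb_rest Γ Λ I Q z
      have e3 : ∑ i ∈ I, nb (Λ i) Q z ≤ I.card * r0 := by
        rw [← smul_eq_mul]
        refine Finset.sum_le_card_nsmul _ _ _ fun i hi => ?_
        rw [h4 i hi z hzP]
        exact hr i (Finset.mem_insert_of_mem hi) z hzP
      have e4 : (I.card + 1) * r0 = I.card * r0 + r0 := by ring
      omega
    have hle : rest Γ Λ I ≤ Γ := fun _ _ h => h.1
    obtain ⟨L, l1, l2, l3, l4⟩ := hSEL V (rest Γ Λ I) P Q (r a) r0 d C hPQ hd
      (hr a (Finset.mem_insert_self a I)) hz'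
      (fun u huQ => le_trans (nb_mono_graph hle P u) (hu u huQ))
    have hne : ∀ i ∈ I, i ≠ a := fun i hi he => ha (he ▸ hi)
    refine ⟨Function.update Λ a L, ?_, ?_, ?_, ?_, ?_⟩
    · intro i
      by_cases hi : i = a
      · rw [hi, Function.update_self]
        exact l1.trans hle
      · rw [Function.update_of_ne hi]
        exact h1 i
    · intro i u v hadj
      by_cases hi : i = a
      · rw [hi, Function.update_self] at hadj
        exact ⟨hi ▸ Finset.mem_insert_self a I, l2 u v hadj⟩
      · rw [Function.update_of_ne hi] at hadj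
        exact ⟨Finset.mem_insert_of_mem (h2 i u v hadj).1, (h2 i u v hadj).2⟩
    · intro i j u v hi hj
      by_cases hia : i = a
      · by_cases hja : j = a
        · rw [hia, hja]
        · rw [hia, Function.update_self] at hi
          rw [Function.update_of_ne hja] at hj
          exact absurd hj ((l1 hi).2 j (h2 j u v hj).1)
      · by_cases hja : j = a
        · rw [hja, Function.update_self] at hj
          rw [Function.update_of_ne hia] at hi
          exact absurd hi ((l1 hj).2 i (h2 i u v hi).1)
        · rw [Function.update_of_ne hia] at hi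
          rw [Function.update_of_ne hja] at hj
          exact h3 i j u v hi hj
    · intro i hi z hzP
      rcases Finset.mem_insert.1 hi with hi | hi
      · rw [hi, Function.update_self]
        exact l3 z hzP
      · rw [Function.update_of_ne (hne i hi)]
        exact h4 i hi z hzP
    · intro i hi u huQ
      rcases Finset.mem_insert.1 hi with hi | hi
      · rw [hi, Function.update_self]
        exact l4 u huQ
      · rw [Function.update_of_ne (hne i hi)]
        exact h5 i hi u huQ

end Pool.Agent.H4.HX
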