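import Pool.Agent.H65.HX.GBas

/-!
# Project HX: XDI, even distribution over a product
-/

set_option autoImplicit false
open Classical Finset

namespace Pool.Agent.H4.HX

open Pool.Agent.H65.HX

theorem t_XDI : S_XDI := by
  intro Y Z hY hZ
  have key : ∀ n : ℕ, ∃ g : ℕ → ℕ → ℕ, ∑ b ∈ Y, ∑ β ∈ Z, g b β = n ∧
      ∀ b ∈ Y, ∀ β ∈ Z, g b β * (Y.card * Z.card) ≤ n + Y.card * Z.card := by
    intro n
    obtain ⟨t, ht⟩ : ∃ t, t = Y.card * Z.card := ⟨_, rfl⟩
    have htpos : 0 < t := by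
      rw [ht]
      exact Nat.mul_pos hY.card_pos hZ.card_pos
    have hcard : (Y ×ˢ Z).card = t := by rw [ht]; exact Finset.card_product _ _
    obtain ⟨S, hS, hSc⟩ := Finset.exists_subset_card_eq (s := Y ×ˢ Z) (n := n % t)
      (by rw [hcard]; exact (Nat.mod_lt _ htpos).le)
    refine ⟨fun b β => n / t + (if (b, β) ∈ S then 1 else 0), ?_, ?_⟩
    · have h1 : ∑ b ∈ Y, ∑ β ∈ Z, (n / t + (if (b, β) ∈ S then 1 else 0)) =
          ∑ x ∈ Y ×ˢ Z, (n / t + (if x ∈ S then 1 else 0)) := by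
        rw [Finset.sum_product]
      rw [h1, Finset.sum_add_distrib, Finset.sum_const, hcard]
      have h2 : ∑ x ∈ Y ×ˢ Z, (if x ∈ S then 1 else 0) = S.card := by
        rw [Finset.sum_ite_mem, Finset.inter_eq_right.2 hS]
        simp
      rw [h2, hSc, smul_eq_mul]
      exact Nat.div_add_mod n t
    · intro b hb β hβ
      rw [← ht]
      have h3 := Nat.div_mul_le_self n t
      dsimp only
      split_ifs <;> nlinarith
  choose g hg using key
  exact ⟨g, hg⟩

end Pool.Agent.H4.HX
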