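import Pool.Agent.H65.HX.GBas

/-!
# Project HX: XIM, the imbalance is small
-/

set_option autoImplicit false
open Classical Finset

namespace Pool.Agent.H4.HX

open Pool.Agent.H21.HV (nb)
open Pool.Agent.H39.HW (sm Av ln blk lab Reg)
open Pool.Agent.H65.HX

theorem t_XIM (hRZ : S_RZ0) (hND : S_NDG) : S_XIM := by
  intro V _ G D p s cl x f T c hC hW hL hT z hz
  have hs := hC.sch
  have hzR : cl z ∈ s.R := hs.R0R hz
  have hrz := hRZ V G D p s cl hC z hzR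
  obtain ⟨hn1, hn2⟩ := hND V G D p s cl x f T c hC hW hL hT z hzR
  have hn1' : ∀ y < s.m, (Nz G T s cl z y : ℝ) ≤ (s.ω + s.δ) * D := fun y hy => (hn1 y hy).2
  have hbal := hs.bal (cl z) hz
  have hδ := hs.dpos
  have hμ := mu_pos hs
  have hω := omega_pos hs
  have hD : (0 : ℝ) < D := by
    have h1 := hC.big
    have h2 : (0 : ℝ) < 100 * (s.m + 2) * (s.B + 2) * (s.H + 2) := by positivity
    by_contra hc
    have h3 : (D : ℝ) = 0 := le_antisymm (not_lt.1 hc) (Nat.cast_nonneg D)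
    rw [h3, mul_zero] at h1
    linarith
  -- the sets
  obtain ⟨CL, hCL⟩ : ∃ CL, CL = (s.cls p (cl z)).filter (fun β => decide (cl z < β) = false) :=
    ⟨_, rfl⟩
  obtain ⟨PL, hPL⟩ : ∃ PL, PL = (range s.H).filter (fun P => s.ty P = false) := ⟨_, rfl⟩
  obtain ⟨YL, hYL⟩ : ∃ YL, YL = (range s.m).filter (fun y => s.ty (s.part y) = false) :=
    ⟨_, rfl⟩
  have himb : (imb G T p s cl z : ℝ) =
      ∑ β ∈ CL, ((ln s.st β : ℝ) - rz G s cl ⊥ (fun _ _ => 0) z β) +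
        ∑ P ∈ PL, ((lab s.st (s.S P (cl z))).card : ℝ) - ∑ y ∈ YL, (Nz G T s cl z y : ℝ) := by
    unfold imb
    rw [← hCL, ← hPL, ← hYL]
    push_cast
    rfl
  rw [← hCL, ← hPL, ← hYL] at hbal
  have hcls : ∀ β ∈ CL, β < s.B := by
    intro β hβ
    rw [hCL] at hβ
    exact (mem_cls.1 (Finset.mem_filter.1 hβ).1).1
  have hCLc : (CL.card : ℝ) ≤ s.B := by
    have : CL.card ≤ (range s.B).card :=
      Finset.card_le_card fun β hβ => Finset.mem_range.2 (hcls β hβ)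
    rw [Finset.card_range] at this
    exact_mod_cast this
  -- first part
  have h1 : |∑ β ∈ CL, ((ln s.st β : ℝ) - rz G s cl ⊥ (fun _ _ => 0) z β) -
      ∑ β ∈ CL, s.dem D (cl z) β * D| ≤ s.B * (s.δ * D) := by
    rw [← Finset.sum_sub_distrib]
    refine (Finset.abs_sum_le_sum_abs _ _).trans ?_
    refine (Finset.sum_le_card_nsmul _ _ (s.δ * D) fun β hβ => (hrz β (hcls β hβ)).2).trans ?_
    rw [nsmul_eq_mul]
    exact mul_le_mul_of_nonneg_right hCLc (by positivity)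
  -- third part
  have h3a : ∑ y ∈ YL, (Nz G T s cl z y : ℝ) ≤ YL.card * ((s.ω + s.δ) * D) := by
    rw [← nsmul_eq_mul]
    refine Finset.sum_le_card_nsmul _ _ _ fun y hy => hn1' y ?_
    rw [hYL] at hy
    exact Finset.mem_range.1 (Finset.mem_filter.1 hy).1
  obtain ⟨YH, hYH⟩ : ∃ YH, YH = (range s.m).filter (fun y => ¬ s.ty (s.part y) = false) :=
    ⟨_, rfl⟩
  have h3b : ∑ y ∈ YH, (Nz G T s cl z y : ℝ) ≤ YH.card * ((s.ω + s.δ) * D) := by
    rw [← nsmul_eq_mul]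
    refine Finset.sum_le_card_nsmul _ _ _ fun y hy => hn1' y ?_
    rw [hYH] at hy
    exact Finset.mem_range.1 (Finset.mem_filter.1 hy).1
  have h3c : ∑ y ∈ YL, (Nz G T s cl z y : ℝ) + ∑ y ∈ YH, (Nz G T s cl z y : ℝ) =
      ∑ y ∈ range s.m, (Nz G T s cl z y : ℝ) := by
    rw [hYL, hYH]
    exact Finset.sum_filter_add_sum_filter_not _ _ _
  have h3d : YL.card + YH.card = s.m := by
    rw [hYL, hYH, Finset.card_filter_add_card_filter_not, Finset.card_range]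
  have h3d' : (YL.card : ℝ) + YH.card = s.m := by exact_mod_cast h3d
  have hYL0 : (0 : ℝ) ≤ YL.card := Nat.cast_nonneg _
  have hYH0 : (0 : ℝ) ≤ YH.card := Nat.cast_nonneg _
  have hδD : 0 < s.δ * D := mul_pos hδ hD
  -- second part
  have h2 : |∑ β ∈ CL, s.dem D (cl z) β * D + ∑ P ∈ PL, ((lab s.st (s.S P (cl z))).card : ℝ) -
      s.ω * YL.card * D| ≤ s.e2 * D := by
    have e : ∑ β ∈ CL, s.dem D (cl z) β * D + ∑ P ∈ PL, ((lab s.st (s.S P (cl z))).card : ℝ) -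
        s.ω * YL.card * D = (∑ β ∈ CL, s.dem D (cl z) β +
          ∑ P ∈ PL, ((lab s.st (s.S P (cl z))).card : ℝ) / D - s.ω * YL.card) * D := by
      rw [sub_mul, add_mul, Finset.sum_mul, Finset.sum_mul]
      congr 2
      refine Finset.sum_congr rfl fun P _ => ?_
      field_simp
    rw [e, abs_mul, abs_of_pos hD]
    exact mul_le_mul_of_nonneg_right hbal hD.le
  -- smallness
  have hsm : ((s.B : ℝ) + 2 * s.m) * s.δ ≤ s.μ := by
    have h4 := hs.small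
    have h5 : s.ρ1 * s.ω ≤ s.μ := by
      have := hs.rho12
      have := hs.rho2
      have := hs.opos
      nlinarith
    have h6 : ((s.B : ℝ) + 2 * s.m) ≤ 10 ^ 4 * (s.m + 2) * (s.B + 2) * (s.H + 2) := by
      have hB0 : (0 : ℝ) ≤ s.B := Nat.cast_nonneg _
      have hm0 : (0 : ℝ) ≤ s.m := Nat.cast_nonneg _
      have hH0 : (0 : ℝ) ≤ s.H := Nat.cast_nonneg _
      have e1 : (s.B : ℝ) + 2 * s.m ≤ (s.m + 2) * (s.B + 2) := by nlinarith [mul_nonneg hB0 hm0]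
      have e2 : ((s.m : ℝ) + 2) * (s.B + 2) ≤ (s.m + 2) * (s.B + 2) * (10 ^ 4 * (s.H + 2)) := by
        refine le_mul_of_one_le_right (by positivity) ?_
        nlinarith
      nlinarith
    calc ((s.B : ℝ) + 2 * s.m) * s.δ ≤ 10 ^ 4 * (s.m + 2) * (s.B + 2) * (s.H + 2) * s.δ :=
          mul_le_mul_of_nonneg_right h6 hδ.le
      _ ≤ s.ρ1 * s.ω := h4
      _ ≤ s.μ := h5
  have hsmD : ((s.B : ℝ) + 2 * s.m) * s.δ * D ≤ s.μ * D := mul_le_mul_of_nonneg_right hsm hD.le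
  have hμD : 0 < s.μ * D := mul_pos hμ hD
  rw [himb]
  obtain ⟨a1, a2⟩ := abs_le.1 h1
  obtain ⟨b1, b2⟩ := abs_le.1 h2
  have hYm : (YL.card : ℝ) * (s.δ * D) ≤ s.m * (s.δ * D) :=
    mul_le_mul_of_nonneg_right (by linarith) hδD.le
  have hYHm : (YH.card : ℝ) * (s.δ * D) ≤ s.m * (s.δ * D) :=
    mul_le_mul_of_nonneg_right (by linarith) hδD.le
  have e3a : (YL.card : ℝ) * ((s.ω + s.δ) * D) = s.ω * YL.card * D + YL.card * (s.δ * D) := by
    ring
  have e3b : (YH.card : ℝ) * ((s.ω + s.δ) * D) = s.ω * YH.card * D + YH.card * (s.δ * D) := by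
    ring
  have e3d : s.m * s.ω * (D : ℝ) = s.ω * YL.card * D + s.ω * YH.card * D := by
    rw [← h3d']; ring
  rw [abs_le]
  constructor
  · nlinarith
  · nlinarith

end Pool.Agent.H4.HX
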